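import Mathlib
import Pool.Agent.J4.H15.MF.An

/-!
# Fields of meromorphic functions of one complex variable are not NIP

All known places of the field of meromorphic functions on `ℂ` (or on a connected open subset of
`ℂ`, or on a noncompact Riemann surface) have an algebraically closed residue field, so that the
criteria with norms or with real or `p`-adic places do not apply to this field. It is shown here
that the field is not NIP, not `NIP_n` for any `n` and not NTP2.

The formula is `∃ X Y Z W, (Z, W) ≠ (0, 0), e X² = 2 W² - Z², u e Y² = Z² - W²`. If it holds in a
field with a discrete order for which `e` has odd order, then `u` has odd order. If `e`, `u` are the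
polynomials `∏ (z - 2 k) (z - 2 k - 1)` over `k ∈ A`, `k ∈ B` for finite sets `A ⊆ B` of natural
numbers, then there is a solution in the field of meromorphic functions: it is constructed from
theta functions with period lattice `ℤ[i]` and an abelian integral on the hyperelliptic curve
`y² = ∏ (z - 2 k) (z - 2 k - 1)` with prescribed real parts of its periods
(`Pool.Agent.J4.H15.MF.exist`). The general case is reduced to this one by composition with
an interpolation polynomial.
-/

set_option autoImplicit false

namespace Pool.Agent.Results.MP_3554b5_lc.MeromorphicFunctions

open Pool.Agent.W882.Nip3 Pool.Agent.J4.H15.MF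

/-- The field `K` is not NIP, not `NIP_n` for any `n`, and not NTP2. -/
def Wild (K : Type) [Field K] [FirstOrder.Ring.CompatibleRing K] : Prop :=
  ¬ NIPField K ∧ (∀ n, ¬ NIPnField n K) ∧ ¬ NTP2Field K

theorem wild_of {K : Type} [Field K] [FirstOrder.Ring.CompatibleRing K] (h : ¬ Tame K) :
    Wild K :=
  ⟨fun h1 => h (Or.inl h1), fun n h1 => h (Or.inr (Or.inl ⟨n, h1⟩)),
    fun h1 => h (Or.inr (Or.inr h1))⟩

/-- All finitely generated extension fields `K` of the fraction field `M` of `R` are wild. -/
def WildExtensions (R : Type) [CommRing R] : Prop :=
  ∀ (M : Type) [Field M] [Algebra R M] [IsFractionRing R M]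
    (K : Type) [Field K] [FirstOrder.Ring.CompatibleRing K] [Algebra M K],
    (⊤ : IntermediateField M K).FG → Wild K

/-- For an uncountable set `V` of complex numbers `c` there are places `l c`, `t c` of `R` at which
`f - c` has odd order, such that all nonzero `h ∈ R` have order zero at all but countably many of
these places. -/
def ManyPlaces {X : Type} (R : Subring (X → ℂ)) (f : X → ℂ) : Prop :=
  ∃ (V : Set ℂ) (l : ℂ → Filter X) (t : ℂ → X → ℂ), ¬ V.Countable ∧
    (∀ c ∈ V, IsPlace R (l c) (t c)) ∧
    (∀ c ∈ V, ∃ n : ℕ, Odd n ∧ HasOrder (l c) (t c) (fun x => f x - c) n) ∧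
    ∀ h ∈ R, h ≠ 0 → {c ∈ V | ¬ HasOrder (l c) (t c) h 0}.Countable

/-- (1) Let `φ` be an injective ring homomorphism from the ring of entire functions to a field `K`,
such that for infinitely many complex numbers `c` there is a discrete order function on `K` for
which `φ (z - c)` has positive and odd order. Then `K` is not NIP, not `NIP_n` for any `n` and not
NTP2.

(2) Let `R` be a ring of complex-valued functions on a set `X`, and `f` a function on `X` such that
`F ∘ f ∈ R` for all entire functions `F`. Assume that for uncountably many complex numbers `c`
there is a place of `R` at which `f - c` has odd order, and that all nonzero `h ∈ R` have order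
zero at all but countably many of these places (for example: the ring of holomorphic functions on
a noncompact Riemann surface `X`). Then all finitely generated extension fields `K` of the fraction
field `M` of `R` have the same property.

(3) Let `D` be a nonempty connected open subset of `ℂ`, `M` the fraction field of the ring of
holomorphic functions on `D` (the field of meromorphic functions on `D`), and `K` a finitely
generated extension field of `M`. Then `K` is not NIP, not `NIP_n` for any `n` and not NTP2.

(4) The same holds for a nonempty connected open subset `D` of `ℝ` (an open interval) and the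
fraction field of the ring of complex-valued real analytic functions on `D`. -/
theorem result :
    (∀ (K : Type) [Field K] [FirstOrder.Ring.CompatibleRing K] (φ : Ent →+* K),
      Function.Injective φ →
      {c : ℂ | ∃ v : OrdFn K, 0 < v.ord (φ (lin c)) ∧ Odd (v.ord (φ (lin c)))}.Infinite →
      Wild K) ∧
    (∀ (X : Type) (R : Subring (X → ℂ)) (f : X → ℂ),
      (∀ F : ℂ → ℂ, Differentiable ℂ F → (fun x => F (f x)) ∈ R) → ManyPlaces R f →
      WildExtensions R) ∧
    (∀ D : Set ℂ, IsOpen D → IsConnected D → WildExtensions (AnalyticRing ℂ D)) ∧
    (∀ D : Set ℝ, IsOpen D → IsConnected D → WildExtensions (AnalyticRing ℝ D)) := by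
  refine ⟨?_, ?_, ?_, ?_⟩
  · intro K _ _ φ hφ hinf
    exact wild_of (not_tame_of_places φ hφ hinf)
  · intro X R f hf ⟨V, l, t, hV, hp, ho, hc⟩ M _ _ _ K _ _ _ hfg
    exact wild_of (not_tame_of_fg f hf V hV l t (fun c h => ⟨hp c h, ho c h⟩) hc hfg)
  · intro D hD hconn M _ _ _ K _ _ _ hfg
    exact wild_of (not_tame_an hD hconn (not_countable_of_isOpen hD hconn.nonempty) hfg)
  · intro D hD hconn M _ _ _ K _ _ _ hfg
    exact wild_of (not_tame_an hD hconn (not_countable_of_isOpen_real hD hconn.nonempty) hfg)

end Pool.Agent.Results.MP_3554b5_lc.MeromorphicFunctions
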