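import Pool.Agent.J4.H3.NG.Main

/-!
# Normal extensions which are NIP, and valuations of the base field

Let `K` be an infinite field of characteristic `p > 0` which is NIP, or `NIP_n` for some `n`.
Kaplan, Scanlon and Wagner (Hempel for `NIP_n`) proved that the finite extensions of `K` are closed
under Artin-Schreier extensions, so that every nontrivial valuation of `K` has a `p`-divisible value
group and a perfect residue field which is closed under Artin-Schreier extensions. We show that these
properties go down to every subfield `F` over which `K` is normal (for example Galois), for all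
valuations of `F` whose extensions to `K` are not henselian, if `K` is not separably closed. So the
conclusion of Shelah's conjecture holds for `K` as soon as it is normal over a field `F` with one
nontrivial valuation which does not have these properties.

Proof. Let `N` be normal over `F` and algebraic over a relatively separably closed subfield of `K`;
for simplicity let it be Galois over `F`. For every `b` in the separable closure of `N` there is `y`
in `N(b)` with `y ^ p - y = b` (`clo_alg`). Let `g` be an automorphism over `N`, and `b` in a finite
Galois extension `B` of `F`. Then `z = g y - y` is fixed by all automorphisms over `B`, as they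
commute with `g` on `N(b)`. So `g b - b = z ^ p - z` with `z` in `B` (`star`). The order of `g` on
`B` is prime to `p` (`no_order_p`). Replacing `b` by `x ^ p * b` with large `x` in `F`, we see that
`g b - b` is a limit of `p`-th powers, for the valuations of `B` above a valuation of `F`; if
`g ≠ 1` on `B` then the `p`-th powers are dense in `B` (`cl_all`), hence in `F` by the trace
(`dense_base`). If `g` does not fix the valuation `w` of `B` then we can choose `b` such that
`g b - b` has a given residue, so the residue field of `w` is closed under Artin-Schreier
extensions (`resid`), hence also the residue field of `F` by the trace (`as_descent`).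

`NIPField` and `NIPnField` are defined in `Pool.Agent.W882.Nip3.Defs`.
-/

set_option autoImplicit false

namespace Pool.Agent.Results.MP_3554b5_lc.NormalExtensions

open IsLocalRing Pool.Agent.W882.Nip3

/-- `κ` is closed under Artin-Schreier extensions. -/
def ASClosed (κ : Type) [Field κ] (p : ℕ) : Prop := ∀ a : κ, ∃ y, y ^ p - y = a

/-- Every element of `κ` is a `p`-th power. -/
def Perf (κ : Type) [Field κ] (p : ℕ) : Prop := ∀ a : κ, ∃ c, c ^ p = a

section

variable {F : Type} [Field F] (O : ValuationSubring F) (p : ℕ)

/-- The value group of `O` is `p`-divisible. -/
def PDiv : Prop := ∀ a : F, ∃ c : F, O.valuation a = O.valuation c ^ p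

/-- The `p`-th powers are dense in `F` for the topology defined by `O`. -/
def PDense : Prop := ∀ a e : F, e ≠ 0 → ∃ c : F, O.valuation (a - c ^ p) < O.valuation e

end

/-- `F` is a finitely generated field extension, not finite, of some field, or a finite extension of
the field of fractions of a Noetherian domain which is not a field. -/
def FunctionField (F : Type) [Field F] : Prop :=
  (∃ (k : Type) (_ : Field k) (_ : Algebra k F),
    (⊤ : IntermediateField k F).FG ∧ ¬ FiniteDimensional k F) ∨
  ∃ (A : Type) (_ : CommRing A) (_ : IsDomain A) (_ : IsNoetherianRing A)
    (_ : Algebra (FractionRing A) F), ¬ IsField A ∧ FiniteDimensional (FractionRing A) F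

/-- Let `K` be an infinite field of characteristic `p > 0` which is NIP (the hypothesis of
`S14569`), or `NIP_n` for some `n`.

(1) Let `F` be a field such that `K` is a normal algebraic extension of `F` (for example a Galois
extension), and let `O` be a nontrivial valuation ring of `F`. If the value group of `O` is not
`p`-divisible, or the residue field of `O` is not perfect, or more generally the field of `p`-th
powers is not dense in `F`, then `K` is separably closed. If the residue field of `O` is not closed
under Artin-Schreier extensions, then `K` has a nontrivial henselian valuation ring; every valuation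
ring of `K` above `O` is henselian.

(2) In particular `K` is separably closed if it is a normal extension of a field `F` which is a
finitely generated field extension, not finite, of some field `k`, or a finite extension of the
field of fractions of a Noetherian domain which is not a field.

(3) Let `F` be any subfield of `K` with a nontrivial valuation ring such that the field of `p`-th
powers is not dense in `F`. Every normal extension `N` of `F` which contains a root of the minimal
polynomial of every element of `K` which is separable over `F` is separably closed.

(4) More generally let `k` be a subfield which is separably closed in `K`, `N` an algebraic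
extension of `k`, and `F` a field such that `N` is a normal extension of `F`, and let `O` be a
nontrivial valuation ring of `F`. If `N` is not separably closed then the field of `p`-th powers is
dense in `F`, the value group of `O` is `p`-divisible, and its residue field is perfect. If a
valuation ring of `N` above `O` is not henselian then the residue field of `O` is closed under
Artin-Schreier extensions. -/
theorem result (K : Type) [Field K] [FirstOrder.Ring.CompatibleRing K] [Infinite K] (p : ℕ)
    (hp : p.Prime) [CharP K p] (hK : NIPField K ∨ ∃ n, NIPnField n K) :
    (∀ (F : Type) [Field F] [Algebra F K] [Normal F K] (O : ValuationSubring F), O ≠ ⊤ →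
      (¬ PDiv O p ∨ ¬ Perf (ResidueField O) p ∨ ¬ PDense O p → IsSepClosed K) ∧
      (¬ ASClosed (ResidueField O) p →
        (∃ A : ValuationSubring K, A ≠ ⊤ ∧ HenselianLocalRing A) ∧
        ∀ A : ValuationSubring K, A.comap (algebraMap F K) = O → HenselianLocalRing A)) ∧
    (∀ (F : Type) [Field F] [Algebra F K] [Normal F K], FunctionField F → IsSepClosed K) ∧
    (∀ (F : Type) [Field F] [Algebra F K] (O : ValuationSubring F), O ≠ ⊤ → ¬ PDense O p →
      ∀ (N : Type) [Field N] [Algebra F N] [Normal F N],
        (∀ x : K, IsSeparable F x → ∃ y : N, Polynomial.aeval y (minpoly F x) = 0) →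
          IsSepClosed N) ∧
    ∀ (k N F : Type) [Field k] [Field N] [Field F] [Algebra k K] [Algebra k N] [Algebra F N],
      (∀ x : K, IsSeparable k x → ∃ y, algebraMap k K y = x) → Algebra.IsAlgebraic k N →
      Normal F N → ∀ O : ValuationSubring F, O ≠ ⊤ →
        (¬ IsSepClosed N → PDense O p ∧ PDiv O p ∧ Perf (ResidueField O) p) ∧
        ∀ A : ValuationSubring N, A.comap (algebraMap F N) = O → ¬ HenselianLocalRing A →
          ASClosed (ResidueField O) p := by
  have hpp : Fact p.Prime := ⟨hp⟩
  have hAS : ∀ (L : Type) [Field L] [Algebra K L] [FiniteDimensional K L] (a : L),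
      ∃ x : L, x ^ p - x = a := fun L _ _ _ a => Pool.Agent.J4.H3.NG.as_closed K p hK L a
  have h4 : ∀ (k N F : Type) [Field k] [Field N] [Field F] [Algebra k K] [Algebra k N]
      [Algebra F N], (∀ x : K, IsSeparable k x → ∃ y, algebraMap k K y = x) →
      Algebra.IsAlgebraic k N → Normal F N → ∀ O : ValuationSubring F, O ≠ ⊤ →
        (¬ IsSepClosed N → PDense O p ∧ PDiv O p ∧ Perf (ResidueField O) p) ∧
        ∀ A : ValuationSubring N, A.comap (algebraMap F N) = O → ¬ HenselianLocalRing A →
          ASClosed (ResidueField O) p := by
    intro k N F _ _ _ _ _ _ hk halg hnor O hO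
    obtain ⟨h1, h2⟩ := Pool.Agent.J4.H3.NG.main_gen hAS hk (N := N) O hO
    refine ⟨fun hN => ?_, h2⟩
    have h3 := h1 hN
    exact ⟨h3, Pool.Agent.J4.H3.NG.value_of_dense O h3 hp.ne_zero,
      Pool.Agent.J4.H3.NG.perfect_of_dense O h3 hp.ne_zero⟩
  have h1 : ∀ (F : Type) [Field F] [Algebra F K] [Normal F K] (O : ValuationSubring F), O ≠ ⊤ →
      (¬ PDiv O p ∨ ¬ Perf (ResidueField O) p ∨ ¬ PDense O p → IsSepClosed K) ∧
      (¬ ASClosed (ResidueField O) p →
        (∃ A : ValuationSubring K, A ≠ ⊤ ∧ HenselianLocalRing A) ∧
        ∀ A : ValuationSubring K, A.comap (algebraMap F K) = O → HenselianLocalRing A) := by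
    intro F _ _ _ O hO
    obtain ⟨h5, h6⟩ := h4 K K F (fun x _ => ⟨x, rfl⟩) inferInstance inferInstance O hO
    constructor
    · intro h
      by_contra hN
      obtain ⟨h7, h8, h9⟩ := h5 hN
      rcases h with h | h | h
      · exact h h8
      · exact h h9
      · exact h h7
    · intro ha
      have h7 : ∀ A : ValuationSubring K, A.comap (algebraMap F K) = O → HenselianLocalRing A := by
        intro A hA
        by_contra hcon
        exact ha (h6 A hA hcon)
      obtain ⟨A, hA1, hA2⟩ := Pool.Agent.J4.H3.NG.exists_over (N := K) O hO
      exact ⟨⟨A, hA1, h7 A hA2⟩, h7⟩
  refine ⟨h1, fun F _ _ _ h => ?_, fun F _ _ O hO h N _ _ _ hN => ?_, h4⟩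
  · rcases h with ⟨k, _, _, h2, h3⟩ | ⟨A, _, _, _, _, h2, h3⟩
    · obtain ⟨V, hV, a, -, ha⟩ := Pool.Agent.J4.H3.NG.fg_value k F h2 h3 hp.two_le
      refine (h1 F V hV).1 (Or.inl fun h => ?_)
      obtain ⟨c, hc⟩ := h a
      exact ha c hc
    · obtain ⟨V, hV, a, -, ha⟩ := Pool.Agent.J4.H3.NG.noeth_value A h2 F hp.two_le
      refine (h1 F V hV).1 (Or.inl fun h => ?_)
      obtain ⟨c, hc⟩ := h a
      exact ha c hc
  · refine Pool.Agent.J4.H3.NG.galois_closure hAS hN O hO ?_
    unfold PDense at h
    push Not at h
    exact h

end Pool.Agent.Results.MP_3554b5_lc.NormalExtensions
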