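import Pool.Agent.J4.H99.OV.Conv

/-!
# Fields of functions of one variable over the real and the `p`-adic numbers are not NIP

Let `F` be the field of meromorphic functions on an open interval of the real line, or on an open
disc (of finite or infinite radius) over the field of `p`-adic numbers; more precisely the field of
fractions of the ring of analytic functions there. These rings are not Noetherian, and the
transcendence degree of `F` is infinite. Let `κ` be an algebraic extension of `F` which is NIP,
`NIP_n` or NTP2, or a residue field of a field elementarily equivalent to a field with one of these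
properties. We show that `κ / F` has elements of even degree in the real case, and that for every
prime number `ℓ` every power of `ℓ` divides the degree of some finite subextension of `κ / F` in the
`p`-adic case. In particular `F` and its extensions of finite odd degree (in the `p`-adic case, all
its finite extensions) are excluded.

These fields have infinitely many discrete valuations, given by the points of the interval or disc;
their residue fields are the real (or `p`-adic) numbers. The theorem is a consequence of the
starting result `UnramifiedNorms` and of the extension theorem `extend` of `Pool.Agent.R614.PT`,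
which is used here for fields `F` with infinitely many places which are not tame.

`NIPField`, `NIPnField`, `NTP2Field` are defined in `Pool.Agent.W882.Nip3.Defs`; `IsResidue`,
`Divisible`, `Residue`, `SepExt`, `SepExtAll`, `BoundedPart` and `PrimeToDegrees` in
`Pool.Agent.R614.PT.Defs`; `HasTaylor` and `analyticRing` in `Pool.Agent.J4.H30.NF`; `convRing` in
`Pool.Agent.J4.H99.OV.Conv`.
-/

set_option autoImplicit false

namespace Pool.Agent.Results.MP_3554b5_lc.OneVariable

open NNReal ENNReal Pool.Agent.W882.Nip3 Pool.Agent.R614.PT Pool.Agent.J4.H30.NF
open Pool.Agent.J4.H99.OV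

/-- Let `K` be a field which is NIP (the hypothesis of `S14569`), or `NIP_n` for some `n`, or
`NTP2`. Let `κ` be the residue field of a valuation ring `O` of a field `K'` which is elementarily
equivalent to `K` (for example `κ = O = K' = K`), and suppose that `κ` is algebraic over a field
`F`.

(1) Let `F` have infinitely many pairwise incomparable real valuations whose value groups are not
`ℓ`-divisible. If every finite extension of each residue field has a separable extension of degree
`ℓ`, then the powers of `ℓ` which divide the degrees of the finite subextensions of `κ / F` are not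
bounded. If each residue field has a separable extension of degree `ℓ`, then some element of `κ` has
a degree over `F` which is divisible by `ℓ`.

(2) The same is true if `F` is the field of fractions of a ring `R` of functions on a subset `D` of
a nontrivially normed field `𝕜` (written as `Fin 1 → 𝕜`) such that all functions in `R` have a
Taylor expansion at infinitely many interior points `a` of `D`, which is nonzero if the function is
nonzero, and such that `R` contains the constants and the functions `x - a`, with the field `𝕜` in
place of the residue fields. If `𝕜` is a subfield of `ℝ` and `ℓ = 2` then the constants are not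
needed.

(3) The same is true if `F` is the field of fractions of the ring of power series in one variable
with radius of convergence at least `r > 0` over a complete nontrivially normed field `𝕜`.

(4) In particular if `F` is the field of fractions of the ring of power series over `ℚ_[p]` with
radius of convergence at least `r` (for example the field of meromorphic functions on the affine
line over `ℚ_[p]`, for `r = ∞`), then for all prime numbers `ℓ` and all `M` there is a finite
subextension of `κ / F` whose degree is divisible by `ℓ ^ M`.

(5) If `F` is the field of fractions of the ring of all analytic functions on a nonempty connected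
open subset of the real line, then some element of `κ` has even degree over `F`. -/
theorem result (K : Type) [Field K] [FirstOrder.Ring.CompatibleRing K]
    (hK : NIPField K ∨ (∃ n, NIPnField n K) ∨ NTP2Field K) (κ : Type) [Field κ]
    (hκ : IsResidue K κ) (F : Type) [Field F] [Algebra F κ] [Algebra.IsAlgebraic F κ]
    (ℓ : ℕ) (hℓ : ℓ.Prime) :
    (∀ u : ℕ → Valuation F ℝ≥0, (Pairwise fun i j => ∃ z, u i z < 1 ∧ 1 < u j z) →
      (∀ i, ¬ Divisible (u i) ℓ) →
      ((∀ i, SepExtAll (Residue (u i)) ℓ) → ¬ BoundedPart ℓ F κ) ∧
      ((∀ i, SepExt (Residue (u i)) ℓ) → ¬ PrimeToDegrees ℓ F κ)) ∧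
    (∀ (𝕜 : Type) [NontriviallyNormedField 𝕜] (D : Set (Fin 1 → 𝕜)) (R : Subring (D → 𝕜))
      [Algebra R F] [IsFractionRing R F] (S : Set 𝕜), S.Infinite →
      (∀ a ∈ S, (fun _ => a) ∈ interior D) →
      (∀ a ∈ S, ∀ f ∈ R, ∃ p, HasTaylor f (fun _ => a) p ∧ (f ≠ 0 → p ≠ 0)) →
      (∀ a ∈ S, (fun x : D => x.1 0 - a) ∈ R) →
      ((∀ c : 𝕜, (fun _ => c) ∈ R) →
        (SepExtAll 𝕜 ℓ → ¬ BoundedPart ℓ F κ) ∧ (SepExt 𝕜 ℓ → ¬ PrimeToDegrees ℓ F κ)) ∧
      (Nonempty (𝕜 →+* ℝ) → ℓ = 2 → ¬ PrimeToDegrees ℓ F κ)) ∧
    (∀ (𝕜 : Type) [NontriviallyNormedField 𝕜] [CompleteSpace 𝕜] (r : ℝ≥0∞)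
      [Algebra (convRing 𝕜 r) F] [IsFractionRing (convRing 𝕜 r) F], 0 < r →
      (SepExtAll 𝕜 ℓ → ¬ BoundedPart ℓ F κ) ∧ (SepExt 𝕜 ℓ → ¬ PrimeToDegrees ℓ F κ)) ∧
    (∀ (p : ℕ) [Fact p.Prime] (r : ℝ≥0∞) [Algebra (convRing ℚ_[p] r) F]
      [IsFractionRing (convRing ℚ_[p] r) F], 0 < r →
      ∀ M : ℕ, ∃ L : IntermediateField F κ, FiniteDimensional F L ∧ ℓ ^ M ∣ Module.finrank F L) ∧
    (∀ (D : Set (Fin 1 → ℝ)) [Algebra (analyticRing ℝ D) F] [IsFractionRing (analyticRing ℝ D) F],
      IsOpen D → IsPreconnected D → D.Nonempty → ∃ x : κ, 2 ∣ (minpoly F x).natDegree) := by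
  refine ⟨fun u hu hd => part1 K hK hℓ κ hκ F u hu hd, ?_, ?_, ?_, ?_⟩
  · intro 𝕜 _ D R _ _ S hS hSD hR hx
    exact part3 K hK hℓ κ hκ F 𝕜 D R S hS hSD hR hx
  · intro 𝕜 _ _ r _ _ hr
    exact part4 K hK hℓ κ hκ F 𝕜 r hr
  · intro p _ r _ _ hr M
    have h1 := (part4 K hK hℓ κ hκ F ℚ_[p] r hr).1 (sepExtAll_padic p hℓ)
    by_contra hcon
    push Not at hcon
    exact h1 ⟨M, hcon⟩
  · intro D _ _ hop hcon hne
    have h1 := part_real K hK κ hκ F D hop hcon hne
    by_contra hcon'
    push Not at hcon'
    exact h1 hcon'

end Pool.Agent.Results.MP_3554b5_lc.OneVariable
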