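import Pool.Agent.J4.H30.NF.Several
import Pool.Agent.J4.H30.NF.Analytic

/-!
# Fields of analytic functions of several variables are not NIP, not `NIP_n` and not NTP2

Let `F` be a field which can be embedded in the field of fractions of a ring of formal power series
`𝕜⟦X_s : s ∈ σ⟧` over a field `𝕜` such that two of the variables are in the image of `F`. For
instance `F` may be the field of meromorphic functions on `ℂ ^ n`, the field of fractions of the
ring of analytic functions on an open connected subset of `ℝ ^ n` or `ℂ ^ n`, or of a quasi-analytic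
ring of smooth functions, or of a ring of power series over a `p`-adic field with a condition on the
radius of convergence, for `n ≥ 2`. (These rings are far from being Noetherian.) We show that `F`
and its finite extensions are not NIP, not `NIP_n` for any `n` and not NTP2, and that they are not
residue fields of fields elementarily equivalent to a field with one of these properties.

Proof. Let `X, Y` be the two variables. For every `w ≥ 1` the substitution `X ↦ X T`,
`Y ↦ Y T ^ w` embeds the field of fractions of the ring of formal power series in a field of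
Laurent series, and so it induces a discrete valuation of `F` for which `X` has the value `1` and
`Y` has the value `w`. For different `w` these valuations are incomparable. The residue field of
`F` contains `Y / X ^ w` and is contained in the field of fractions of the ring of formal power
series; it has a discrete valuation (the order in `Y`), and by the theorem of Krull and Akizuki every
finite extension of it also has one, hence has a separable extension of degree two or three. By
the starting result `UnramifiedNorms` a field which is NIP, `NIP_n` or NTP2 has only few such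
valuations.
-/

set_option autoImplicit false

namespace Pool.Agent.Results.MP_3554b5_lc.SeveralVariables

open Pool.Agent.W882.Nip3 Pool.Agent.J4.H30.NF

/-- Let `K` be a field which is NIP (the hypothesis of `S14569`), or `NIP_n` for some `n`, or
`NTP2`. Let `K'` be a field elementarily equivalent to `K` (for example `K' = K`), `O` a valuation
ring of `K'` (for example `O = K'`), and suppose that its residue field `κ` is a finite extension
of a field `F`.

(1) There is no embedding of `F` in the field of fractions of a ring of formal power series in at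
least two variables over a field `𝕜`, such that two of the variables are in the image.

(2) `F` is not the field of fractions of a ring `R` of functions on a subset `D` of `𝕜 ^ n`, where
`𝕜` is a nontrivially normed field, such that for some interior point `a` of `D` all functions in
`R` have a Taylor expansion at `a`, which is nonzero if the function is nonzero, and `R` contains
the functions `x i - a i` and `x j - a j` for some `i ≠ j`.

(3) `F` is not the field of fractions of the ring of all analytic functions on a nonempty connected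
open subset of `ℝ ^ n` or `ℂ ^ n`, if `n ≥ 2`. -/
theorem result (K : Type) [Field K] [FirstOrder.Ring.CompatibleRing K]
    (hK : NIPField K ∨ (∃ n, NIPnField n K) ∨ NTP2Field K)
    (K' : Type) [Field K'] [FirstOrder.Ring.CompatibleRing K']
    (hKK' : FirstOrder.Language.ring.ElementarilyEquivalent K K')
    (O : ValuationSubring K') (κ : Type) [Field κ] (π : O →+* κ) (hπ : Function.Surjective π)
    (F : Type) [Field F] [Algebra F κ] [FiniteDimensional F κ] :
    (∀ (𝕜 σ : Type) [Field 𝕜] (i j : σ), i ≠ j →
      ¬ ∃ T : F →+* FractionRing (MvPowerSeries σ 𝕜),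
        (∃ x, T x = algebraMap (MvPowerSeries σ 𝕜) _ (MvPowerSeries.X i)) ∧
        (∃ y, T y = algebraMap (MvPowerSeries σ 𝕜) _ (MvPowerSeries.X j))) ∧
    (∀ (𝕜 : Type) [NontriviallyNormedField 𝕜] (n : ℕ) (D : Set (Fin n → 𝕜)) (R : Subring (D → 𝕜))
      [Algebra R F] [IsFractionRing R F] (a : Fin n → 𝕜), a ∈ interior D →
      (∀ f ∈ R, ∃ p, HasTaylor f a p ∧ (f ≠ 0 → p ≠ 0)) →
      ∀ i j : Fin n, i ≠ j →
        ¬ ((fun x : D => x.1 i - a i) ∈ R ∧ (fun x : D => x.1 j - a j) ∈ R)) ∧
    (∀ (𝕜 : Type) [RCLike 𝕜] (n : ℕ) (D : Set (Fin n → 𝕜)) [Algebra (analyticRing 𝕜 D) F]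
      [IsFractionRing (analyticRing 𝕜 D) F],
      ¬ (2 ≤ n ∧ IsOpen D ∧ IsPreconnected D ∧ D.Nonempty)) := by
  have hκ : Pool.Agent.Y562.NN.TameF κ := fun D => by
    obtain ⟨N, hN⟩ := (UnramifiedNorms.result K hK).1 D
    exact ⟨N, Pool.Agent.Y562.NN.tame_of_residue D N K' (hN K' hKK').1 O κ π hπ⟩
  have h1 : ∀ (𝕜 σ : Type) [Field 𝕜] (i j : σ), i ≠ j →
      ¬ ∃ T : F →+* FractionRing (MvPowerSeries σ 𝕜),
        (∃ x, T x = algebraMap (MvPowerSeries σ 𝕜) _ (MvPowerSeries.X i)) ∧
        (∃ y, T y = algebraMap (MvPowerSeries σ 𝕜) _ (MvPowerSeries.X j)) := by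
    rintro 𝕜 σ _ i j hij ⟨T, ⟨x, hx⟩, y, hy⟩
    exact several κ hκ F T i j hij x y hx hy
  have h2 : ∀ (𝕜 : Type) [NontriviallyNormedField 𝕜] (n : ℕ) (D : Set (Fin n → 𝕜))
      (R : Subring (D → 𝕜)) [Algebra R F] [IsFractionRing R F] (a : Fin n → 𝕜), a ∈ interior D →
      (∀ f ∈ R, ∃ p, HasTaylor f a p ∧ (f ≠ 0 → p ≠ 0)) →
      ∀ i j : Fin n, i ≠ j →
        ¬ ((fun x : D => x.1 i - a i) ∈ R ∧ (fun x : D => x.1 j - a j) ∈ R) := by
    intro 𝕜 _ n D R _ _ a ha hR i j hij ⟨hi, hj⟩
    let τ : R →+* MvPowerSeries (Fin n) 𝕜 := taylorHom ha R fun f hf => (hR f hf).imp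
      fun p hp => hp.1
    have hτ : ∀ f : R, HasTaylor f.1 a (τ f) := taylorHom_spec ha R _
    have hinj : Function.Injective ((algebraMap (MvPowerSeries (Fin n) 𝕜)
        (FractionRing (MvPowerSeries (Fin n) 𝕜))).comp τ) := by
      have hτi : Function.Injective τ := by
        rw [injective_iff_map_eq_zero]
        intro f hf
        by_contra h0
        obtain ⟨p, hp, hp0⟩ := hR f.1 f.2
        apply hp0 (fun h => h0 (Subtype.ext h))
        rw [hp.unique ha (hτ f), hf]
      exact (IsFractionRing.injective (MvPowerSeries (Fin n) 𝕜)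
        (FractionRing (MvPowerSeries (Fin n) 𝕜))).comp hτi
    refine h1 𝕜 (Fin n) i j hij ⟨IsFractionRing.lift hinj, ⟨algebraMap R F ⟨_, hi⟩, ?_⟩,
      ⟨algebraMap R F ⟨_, hj⟩, ?_⟩⟩
    · rw [IsFractionRing.lift_algebraMap, RingHom.comp_apply,
        (hτ ⟨_, hi⟩).unique ha (hasTaylor_coord i)]
    · rw [IsFractionRing.lift_algebraMap, RingHom.comp_apply,
        (hτ ⟨_, hj⟩).unique ha (hasTaylor_coord j)]
  refine ⟨h1, h2, ?_⟩
  intro 𝕜 _ n D _ _ ⟨hn, hop, hcon, a, ha⟩
  have hne : (⟨0, by omega⟩ : Fin n) ≠ ⟨1, by omega⟩ := by
    intro h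
    exact absurd (Fin.mk.inj_iff.1 h) (by omega)
  exact h2 𝕜 n D (analyticRing 𝕜 D) a (by rwa [hop.interior_eq])
    (fun f hf => analyticRing_taylor hcon a ha f hf) _ _ hne ⟨coord_mem D a _, coord_mem D a _⟩

end Pool.Agent.Results.MP_3554b5_lc.SeveralVariables
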